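import Pool.Agent.Helper36.LM.Mat

/-!
LM-M1: the configuration of a skew symmetric matrix.
-/

set_option autoImplicit false

namespace Pool.Agent.Helper36.LM

open Module Finset Matrix

set_option linter.unusedSectionVars false

variable {K D ι : Type} [Field K] [Fintype D] [DecidableEq D] [Fintype ι]

theorem conf_T_apply (a b : ι → D → K) (x : ι → K)
    (h : ∀ i (α β : K), α • a i + β • b i = 0 → α = 0 ∧ β = 0) (φ φ' : D → K) :
    (conf a b x h).T φ φ' = φ ⬝ᵥ (tmat a b x *ᵥ φ') := by
  rw [dot_tmat]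
  change (∑ i, x i • wed (fnl (a i)) (fnl (b i))) φ φ' = _
  rw [LinearMap.sum_apply, LinearMap.sum_apply]
  refine Finset.sum_congr rfl fun i _ => ?_
  rw [LinearMap.smul_apply, LinearMap.smul_apply, wed_apply, smul_eq_mul]
  rfl

theorem conf_move (a b : ι → D → K) (x y : ι → K)
    (h : ∀ i (α β : K), α • a i + β • b i = 0 → α = 0 ∧ β = 0) :
    (conf a b x h).move y = conf a b (x + y) h := by
  have e : (∑ i, x i • wed (fnl (a i)) (fnl (b i))) + ∑ i, y i • wed (fnl (a i)) (fnl (b i)) =
      ∑ i, (x + y) i • wed (fnl (a i)) (fnl (b i)) := by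
    rw [← Finset.sum_add_distrib]
    refine Finset.sum_congr rfl fun i _ => ?_
    rw [Pi.add_apply, add_smul]
  unfold Conf.move conf
  simp only [Conf.mk.injEq, and_true]
  exact e

theorem tmat_transpose (a b : ι → D → K) (x : ι → K) : (tmat a b x)ᵀ = -tmat a b x := by
  unfold tmat
  rw [Matrix.transpose_sum, ← Finset.sum_neg_distrib]
  refine Finset.sum_congr rfl fun i _ => ?_
  rw [Matrix.transpose_smul, Matrix.transpose_sub, Matrix.transpose_vecMulVec,
    Matrix.transpose_vecMulVec, ← smul_neg, neg_sub]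

theorem conf_T_eq (a b : ι → D → K) (x : ι → K)
    (h : ∀ i (α β : K), α • a i + β • b i = 0 → α = 0 ∧ β = 0) (φ : D → K) :
    (conf a b x h).T φ = fnl (-(tmat a b x *ᵥ φ)) := by
  apply LinearMap.ext
  intro φ'
  rw [conf_T_apply, fnl_apply, Matrix.dotProduct_mulVec, ← Matrix.mulVec_transpose,
    tmat_transpose, Matrix.neg_mulVec]

theorem conf_R_eq (a b : ι → D → K) (x : ι → K)
    (h : ∀ i (α β : K), α • a i + β • b i = 0 → α = 0 ∧ β = 0) :
    (conf a b x h).R = (LinearMap.range (tmat a b x).mulVecLin).map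
      (dotProductEquiv K D).toLinearMap := by
  ext f
  constructor
  · rintro ⟨φ, rfl⟩
    rw [conf_T_eq]
    exact ⟨-(tmat a b x *ᵥ φ), ⟨-φ, by simp [Matrix.mulVec_neg]⟩, rfl⟩
  · rintro ⟨_, ⟨φ, rfl⟩, rfl⟩
    refine ⟨-φ, ?_⟩
    rw [conf_T_eq, Matrix.mulVec_neg, neg_neg]
    rfl

theorem conf_line_eq (a b : ι → D → K) (x : ι → K)
    (h : ∀ i (α β : K), α • a i + β • b i = 0 → α = 0 ∧ β = 0) (i : ι) :
    (conf a b x h).line i = (Submodule.span K {a i, b i}).map
      (dotProductEquiv K D).toLinearMap := by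
  rw [Submodule.map_span, Set.image_pair]
  rfl

theorem conf_rnk (a b : ι → D → K) (x : ι → K)
    (h : ∀ i (α β : K), α • a i + β • b i = 0 → α = 0 ∧ β = 0) :
    (conf a b x h).rnk = (tmat a b x).rank := by
  unfold Conf.rnk
  rw [conf_R_eq]
  exact LinearEquiv.finrank_map_eq (dotProductEquiv K D) _

theorem range_fromCols {m n₁ n₂ : Type} [Fintype m] [Fintype n₁] [Fintype n₂]
    (A : Matrix m n₁ K) (B : Matrix m n₂ K) :
    LinearMap.range (fromCols A B).mulVecLin =
      LinearMap.range A.mulVecLin ⊔ LinearMap.range B.mulVecLin := by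
  apply le_antisymm
  · rintro _ ⟨v, rfl⟩
    rw [Matrix.mulVecLin_apply, Matrix.fromCols_mulVec]
    exact Submodule.add_mem_sup ⟨_, rfl⟩ ⟨_, rfl⟩
  · refine sup_le ?_ ?_
    · rintro _ ⟨v, rfl⟩
      refine ⟨Sum.elim v 0, ?_⟩
      rw [Matrix.mulVecLin_apply, Matrix.fromCols_mulVec]
      simp
    · rintro _ ⟨v, rfl⟩
      refine ⟨Sum.elim 0 v, ?_⟩
      rw [Matrix.mulVecLin_apply, Matrix.fromCols_mulVec]
      simp

theorem range_cols (a b : ι → D → K) (i : ι) :
    LinearMap.range (cols a b i).mulVecLin = Submodule.span K {a i, b i} := by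
  have e : ∀ w : Fin 2 → K, (cols a b i) *ᵥ w = w 0 • a i + w 1 • b i := by
    intro w
    funext u
    simp [cols, Matrix.mulVec, dotProduct, Fin.sum_univ_two, mul_comm]
  ext f
  rw [Submodule.mem_span_pair]
  constructor
  · rintro ⟨w, rfl⟩
    rw [Matrix.mulVecLin_apply, e]
    exact ⟨_, _, rfl⟩
  · rintro ⟨s, t, rfl⟩
    refine ⟨![s, t], ?_⟩
    rw [Matrix.mulVecLin_apply, e]
    rfl

theorem conf_one (a b : ι → D → K) (x : ι → K)
    (h : ∀ i (α β : K), α • a i + β • b i = 0 → α = 0 ∧ β = 0) :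
    (conf a b x h).one = mone a b x := by
  unfold Conf.one mone
  refine Finset.filter_congr fun i _ => ?_
  rw [conf_R_eq, conf_line_eq, ← Submodule.map_inf _ (dotProductEquiv K D).injective]
  have e1 : finrank K ((Submodule.span K {a i, b i} ⊓
      LinearMap.range (tmat a b x).mulVecLin).map (dotProductEquiv K D).toLinearMap :
        Submodule K (Dual K (D → K))) =
      finrank K (Submodule.span K {a i, b i} ⊓ LinearMap.range (tmat a b x).mulVecLin :
        Submodule K (D → K)) := LinearEquiv.finrank_map_eq (dotProductEquiv K D) _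
  rw [e1]
  have e2 : finrank K (Submodule.span K {a i, b i}) = 2 := by
    have hli : LinearIndependent K ![a i, b i] := LinearIndependent.pair_iff.mpr (h i)
    have := finrank_span_eq_card hli
    rw [Matrix.range_cons, Matrix.range_cons, Matrix.range_empty, Set.union_empty,
      Fintype.card_fin] at this
    exact this
  have e3 := Submodule.finrank_sup_add_finrank_inf_eq
    (LinearMap.range (tmat a b x).mulVecLin) (Submodule.span K {a i, b i})
  have e4 : (fromCols (tmat a b x) (cols a b i)).rank =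
      finrank K (LinearMap.range (tmat a b x).mulVecLin ⊔ Submodule.span K {a i, b i} :
        Submodule K (D → K)) := by
    unfold Matrix.rank
    rw [range_fromCols, range_cols]
  have e5 : (tmat a b x).rank = finrank K (LinearMap.range (tmat a b x).mulVecLin) := rfl
  rw [inf_comm] at e3
  rw [e4, e5]
  omega

end Pool.Agent.Helper36.LM
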